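import Mathlib
import Pool.Agent.H81.BCI.GMain

set_option autoImplicit false

namespace Pool.Agent.Results.MP_535960_lc.CompleteIndexAll

open Pool.Agent.H81.BCI

/-- For every pair `Δ ≤ k ≤ 2Δ - 2` (so `Δ ≥ 2`): it is Sigma^1_2-complete to distinguish Borel
chromatic index `k` from `k + 1` on `Δ`-regular acyclic Borel graphs if and only if `Δ ≥ 3`. So the
answer is yes for all pairs except the degenerate pair `Δ = k = 2` (lines). -/
theorem result : ∀ Δ k : ℕ, 1 ≤ Δ → Δ ≤ k → k ≤ 2 * Δ - 2 → (CompleteIndex Δ k ↔ 3 ≤ Δ) :=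
  fun _ _ h0 h1 h2 => completeIndex_iff h0 h1 h2

end Pool.Agent.Results.MP_535960_lc.CompleteIndexAll
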